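import Pool.Agent.T9h44.NK.SpecA

/-!
# Project NK, piece EXT: every vertex is in a flag
-/

set_option autoImplicit false

open Set
open scoped RealInnerProductSpace

namespace Pool.Agent.T9h67.NK

open Pool.Agent.T9h98.DC Pool.Agent.T9h44.NK

/-- A polytope of positive dimension has another point. -/
theorem exists_ne {d : ℕ} {P : Set (E (d + 1))} (hP : IsPolytope P) (v : E (d + 1)) :
    ∃ y ∈ P, y ≠ v := by
  by_contra hcon
  push Not at hcon
  have h1 : P ⊆ {v} := fun y hy => hcon y hy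
  have h2 : interior P ⊆ interior {v} := interior_mono h1
  have h3 : interior ({v} : Set (E (d + 1))) = ∅ := interior_singleton v
  rw [h3] at h2
  exact hP.2.ne_empty (subset_empty_iff.mp h2)

theorem dm_singleton {d : ℕ} (v : E d) : dm ({v} : Set (E d)) = 0 := by
  unfold dm
  rw [vectorSpan_singleton]
  exact finrank_bot ℝ _

theorem ext (hF : S_FACES) (hVF : S_VF) (hI : S_INV) (hι : S_IOTA) (hSH : S_SH) : S_EXT := by
  intro d
  induction d with
  | zero =>
    intro P v _ hv
    refine ⟨⟨fun _ => {v}, fun _ => hv, fun i => ?_, fun _ _ _ => le_rfl⟩, rfl⟩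
    have : (i : ℕ) = 0 := by omega
    rw [this]
    exact dm_singleton v
  | succ d ih =>
    intro P v hP hv
    have hFP : FP P := hP.1
    obtain ⟨n, hn0, hn, -⟩ := hI (d + 1 + 1) P v ⊥ hFP hv (exists_ne hP v) (by
      intro h hh
      rw [Subgroup.mem_bot] at hh
      subst hh
      change (fun x => x) '' P = P
      exact image_id P)
    obtain ⟨ι, hort, -⟩ := hι (d + 1) n hn0
    have hfig : IsPolytope (fig v n ι P) := (hVF (d + 1) P v n ι hP hv hn hn0 hort).1
    obtain ⟨x, hx⟩ := ((hF (d + 1) _ hfig.1).2.2.2.2.1 (hfig.2.mono interior_subset)).2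
    obtain ⟨Ψ, -⟩ := ih (fig v n ι P) x hfig hx
    obtain ⟨Φ, hΦ, -⟩ := (hSH (d + 1) P v n ι hP hv hn hn0 hort (d + 1)).1 Ψ
    exact ⟨Φ, hΦ⟩

end Pool.Agent.T9h67.NK
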