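import Pool.Agent.T9h44.NK.SpecA
import Pool.Agent.T9h44.NK.SpecB2

/-!
# Project NK, piece L2: inscribed, adjacent vertices orthogonal
-/

set_option autoImplicit false

open Set Filter Topology
open scoped RealInnerProductSpace

namespace Pool.Agent.T9h67.NK

open Pool.Agent.T9h98.DC Pool.Agent.T9h44.NK

/-- A polytope is not contained in a hyperplane. -/
theorem eq_zero_of_orth {d : ℕ} {P : Set (E d)} (hP : IsPolytope P) (u : E d) (β : ℝ)
    (h : ∀ x ∈ P, ⟪u, x⟫ = β) : u = 0 := by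
  obtain ⟨x₀, hx₀⟩ := hP.2
  have hc : Continuous fun t : ℝ => x₀ + t • u := by fun_prop
  have h1 : ∀ᶠ t in 𝓝 (0 : ℝ), x₀ + t • u ∈ interior P := by
    apply hc.continuousAt.eventually
    apply isOpen_interior.mem_nhds
    simpa using hx₀
  obtain ⟨t, ht1, ht2⟩ := ((h1.filter_mono (nhdsWithin_le_nhds (s := Ioi 0))).and
    self_mem_nhdsWithin).exists
  have h2 := h _ (interior_subset ht1)
  rw [inner_add_right, h _ (interior_subset hx₀), inner_smul_right] at h2
  have h3 : t * ⟪u, u⟫ = 0 := by linarith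
  rcases mul_eq_zero.mp h3 with h4 | h4
  · exact absurd h4 (ne_of_gt ht2)
  · exact inner_self_eq_zero.mp h4

theorem dm_pt {d : ℕ} (v : E d) : dm ({v} : Set (E d)) = 0 := by
  unfold dm
  rw [vectorSpan_singleton]
  exact finrank_bot ℝ _

/-- Transitivity on the vertices from `PT 1`. -/
theorem trans_of_pt1 {d : ℕ} {P : Set (E d)} {H : Subgroup (E d ≃ₗᵢ[ℝ] E d)} (h : PT 1 H P)
    (v w : E d) (hv : Vx P v) (hw : Vx P w) : ∃ g ∈ H, g v = w := by
  have hch : ∀ x : E d, Vx P x → ∃ Φ : Ch P 1, Φ.face 0 = {x} := by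
    intro x hx
    refine ⟨⟨fun _ => {x}, fun _ => hx, fun i => ?_, fun _ _ _ => le_rfl⟩, rfl⟩
    have : (i : ℕ) = 0 := by omega
    rw [this]
    exact dm_pt x
  obtain ⟨Φ, hΦ⟩ := hch v hv
  obtain ⟨Ψ, hΨ⟩ := hch w hw
  obtain ⟨g, hg, hg1⟩ := h Φ Ψ
  refine ⟨g, hg, ?_⟩
  have := hg1 0
  rw [hΦ, hΨ, image_singleton] at this
  exact singleton_injective this

/-- Every vertex has a neighbour. -/
theorem exists_adj (hCONE : S_CONE) {d : ℕ} {P : Set (E (d + 1))} (hP : IsPolytope P)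
    (v : E (d + 1)) (hv : Vx P v) : ∃ y, Adj P v y := by
  by_contra hcon
  push Not at hcon
  have h1 : ∀ x ∈ P, x = v := by
    intro x hx
    obtain ⟨S, c, hS, hsum⟩ := hCONE d P v hP hv x hx
    have : S = ∅ := by
      by_contra hne
      obtain ⟨y, hy⟩ := Finset.nonempty_of_ne_empty hne
      exact hcon y (hS y hy).1
    rw [this, Finset.sum_empty, sub_eq_zero] at hsum
    exact hsum
  have h2 : ∀ u : E (d + 1), u = 0 := fun u =>
    eq_zero_of_orth hP u ⟪u, v⟫ fun x hx => by rw [h1 x hx]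
  have h3 := h2 (EuclideanSpace.single 0 1)
  have h4 := congrFun (congrArg (fun x : E (d + 1) => (x : Fin (d + 1) → ℝ)) h3) 0
  simp at h4

/-- Transitivity on the vertices from `PT 2`. -/
theorem trans_of_pt2 (hF : S_FACES) (hCONE : S_CONE) {d : ℕ} {P : Set (E (d + 1))}
    (hP : IsPolytope P) {H : Subgroup (E (d + 1) ≃ₗᵢ[ℝ] E (d + 1))} (h : PT 2 H P)
    (v w : E (d + 1)) (hv : Vx P v) (hw : Vx P w) : ∃ g ∈ H, g v = w := by
  have hFP := hF (d + 1) P hP.1
  have hch : ∀ x : E (d + 1), Vx P x → ∃ Φ : Ch P 2, Φ.face 0 = {x} := by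
    intro x hx
    obtain ⟨y, hy⟩ := exists_adj hCONE hP x hx
    refine ⟨⟨![{x}, segment ℝ x y], ?_, ?_, ?_⟩, rfl⟩
    · intro i
      fin_cases i
      · exact hx
      · exact hy.2
    · intro i
      fin_cases i
      · exact dm_pt x
      · exact (hFP.2.2.2.2.2.2.2.2.1 x y hy).2.2.2
    · intro i j hij
      fin_cases i <;> fin_cases j
      · exact le_rfl
      · exact singleton_subset_iff.mpr (left_mem_segment ℝ x y)
      · simp at hij
      · exact le_rfl
  obtain ⟨Φ, hΦ⟩ := hch v hv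
  obtain ⟨Ψ, hΨ⟩ := hch w hw
  obtain ⟨g, hg, hg1⟩ := h Φ Ψ
  refine ⟨g, hg, ?_⟩
  have := hg1 0
  rw [hΦ, hΨ, image_singleton] at this
  exact singleton_injective this

/-- The sum of the neighbours of a vertex is `0`. -/
theorem sum_nb (hF : S_FACES) (hVF : S_VF) (hι : S_IOTA) (hNB : S_NB) (hTR : S_TR) (hM1 : S_M1)
    (hSUM : S_SUM0) {d : ℕ} {P : Set (E (d + 1))} (hP : IsPolytope P)
    {H : Subgroup (E (d + 1) ≃ₗᵢ[ℝ] E (d + 1))} (hH : Pres H P) (hUV : UV P) (hEC : EC 0 P)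
    (hPT : PT 2 H P) (v : E (d + 1)) (hv : Vx P v) :
    ∃ N : Finset (E (d + 1)), (∀ y, y ∈ N ↔ Adj P v y) ∧ ∑ y ∈ N, y = 0 := by
  classical
  have hv1 : ‖v‖ = 1 := hUV v hv
  have hv0 : v ≠ 0 := by
    rintro rfl
    rw [norm_zero] at hv1
    exact zero_ne_one hv1
  obtain ⟨ι, hort, -⟩ := hι d v hv0
  obtain ⟨l, hl, hsup, hort', hn0, hUV', -⟩ :=
    hM1 d P v ι 0 hP hUV hEC (by norm_num) (by norm_num) hv hort
  set n := -l • v with hn
  have hfig : IsPolytope (fig v n ι P) := (hVF d P v n ι hP hv hsup hn0 hort').1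
  have hfix : ∀ h ∈ H, h v = v → h n = n := by
    intro h _ hh
    rw [hn, map_smul, hh]
  obtain ⟨hpres, hpt, -⟩ := hTR d P H v n ι hP hH hv hsup hn0 hort' hfix
  have htr := trans_of_pt1 (hpt 1 hPT)
  have hfin := (hF d _ hfig.1).2.2.1
  set X := hfin.toFinset with hX
  have hXm : ∀ x, x ∈ X ↔ Vx (fig v n ι P) x := by
    intro x
    rw [hX, Set.Finite.mem_toFinset]
    rfl
  have hsum : ∑ x ∈ X, x = 0 := hSUM d _ (figH H v ι) X hfig hpres htr hXm
  obtain ⟨hnb1, hnb2, -, -⟩ := hNB d P v n ι hP hv hsup hn0 hort'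
  have hkey : ∀ y x, Adj P v y → Pr v n ι y x → y = l⁻¹ • ι x := by
    intro y x hy hPr
    obtain ⟨t, ht, hyt⟩ := hPr
    have h1 : ⟪v, y⟫ = 0 := hEC v y hy
    have h2 : ⟪v, y - v⟫ = ⟪v, t • (n + ι x)⟫ := by rw [hyt]
    rw [inner_sub_right, h1, inner_smul_right, inner_add_right, hort x, hn, inner_smul_right,
      real_inner_self_eq_norm_sq, hv1] at h2
    have h3 : t * l = 1 := by linarith
    have h4 : t = l⁻¹ := eq_inv_of_mul_eq_one_left h3
    have h5 : y = v + t • (n + ι x) := by rw [← hyt]; abel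
    rw [h5, hn, smul_add, smul_smul, ← h4]
    have h6 : t * -l = -1 := by linarith
    rw [h6]
    simp
  refine ⟨X.image fun x => l⁻¹ • ι x, ?_, ?_⟩
  · intro y
    rw [Finset.mem_image]
    constructor
    · rintro ⟨x, hx, rfl⟩
      obtain ⟨y', hy', hPr⟩ := hnb2 x ((hXm x).mp hx)
      rw [← hkey y' x hy' hPr]
      exact hy'
    · intro hy
      obtain ⟨x, hx, hPr⟩ := hnb1 y hy
      exact ⟨x, (hXm x).mpr hx, (hkey y x hy hPr).symm⟩
  · rw [Finset.sum_image]
    · rw [← Finset.smul_sum, ← map_sum, hsum, map_zero, smul_zero]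
    · intro a _ b _ hab
      have h1 : l⁻¹ ≠ 0 := inv_ne_zero hl.ne'
      exact ι.injective (smul_right_injective _ h1 hab)

/-- **L2.** -/
theorem l2 (hF : S_FACES) (hVF : S_VF) (hι : S_IOTA) (hNB : S_NB) (hCONE : S_CONE) (hTR : S_TR)
    (hM0 : S_M0) (hM1 : S_M1) (hSUM : S_SUM0) : S_L2 := by
  classical
  intro d P H hP hH hUV hEC hPT
  have hPC : PC 0 P := hM0 d P 0 hP hUV hEC (by norm_num)
  have hFP := hF (d + 1) P hP.1
  have hne : P.Nonempty := hP.2.mono interior_subset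
  have hself : IsFace P P := (hFP.2.2.2.2.1 hne).1
  have hhull : P = convexHull ℝ {v | Vx P v ∧ v ∈ P} := (hFP.1 P hself).2
  have hmem : ∀ v, Vx P v → v ∈ P := fun v hv => hv.2.subset rfl
  set S := hFP.2.2.1.toFinset with hS
  have hSm : ∀ v, v ∈ S ↔ Vx P v := by
    intro v
    rw [hS, Set.Finite.mem_toFinset]
    rfl
  have hsum : ∑ v ∈ S, v = 0 :=
    hSUM (d + 1) P H S hP hH (trans_of_pt2 hF hCONE hP hPT) hSm
  -- non-neighbours are antipodal
  have hanti : ∀ v w, Vx P v → Vx P w → w ≠ v → ¬ Adj P v w → w = -v := by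
    intro v w hv hw hwv hnadj
    obtain ⟨N, hN, hN0⟩ := sum_nb hF hVF hι hNB hTR hM1 hSUM hP hH hUV hEC hPT v hv
    have h1 : ∀ y ∈ N, ⟪w, y⟫ ≤ 0 := by
      intro y hy
      have hy' := (hN y).mp hy
      refine hPC w y hw (hFP.2.2.2.2.2.2.2.2.1 v y hy').2.1 ?_
      rintro rfl
      exact hnadj hy'
    have h2 : ∑ y ∈ N, ⟪w, y⟫ = 0 := by
      rw [← inner_sum, hN0, inner_zero_right]
    have h3 : ∀ y ∈ N, ⟪w, y⟫ = 0 := (Finset.sum_eq_zero_iff_of_nonpos h1).mp h2
    have hv1 : ⟪v, v⟫ = 1 := by rw [real_inner_self_eq_norm_sq, hUV v hv]; norm_num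
    have hw1 : ⟪w, w⟫ = 1 := by rw [real_inner_self_eq_norm_sq, hUV w hw]; norm_num
    have h4 : w - ⟪w, v⟫ • v = 0 := by
      apply eq_zero_of_orth hP _ 0
      intro x hx
      obtain ⟨T, c, hT, hTs⟩ := hCONE d P v hP hv x hx
      have h5 : ⟪w - ⟪w, v⟫ • v, v⟫ = 0 := by
        rw [inner_sub_left, inner_smul_left, hv1]
        simp
      have h6 : ⟪w - ⟪w, v⟫ • v, x - v⟫ = 0 := by
        rw [hTs, inner_sum]
        refine Finset.sum_eq_zero fun y hy => ?_
        have hy' := (hT y hy).1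
        have h7 : ⟪w, y⟫ = 0 := h3 y ((hN y).mpr hy')
        have h8 : ⟪v, y⟫ = 0 := hEC v y hy'
        rw [inner_smul_right, inner_sub_right, h5, inner_sub_left, inner_smul_left, h7, h8]
        simp
      rw [inner_sub_right, h5, sub_zero] at h6
      exact h6
    have h9 : w = ⟪w, v⟫ • v := sub_eq_zero.mp h4
    have h10 : ⟪w, v⟫ * ⟪w, v⟫ = 1 := by
      have : ⟪w, w⟫ = ⟪⟪w, v⟫ • v, w⟫ := by rw [← h9]
      have h12 : ⟪v, w⟫ = ⟪w, v⟫ := real_inner_comm _ _
      rw [hw1, inner_smul_left, h12] at this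
      simpa using this.symm
    have h11 : ⟪w, v⟫ = 1 ∨ ⟪w, v⟫ = -1 := mul_self_eq_one_iff.mp h10
    rcases h11 with h11 | h11
    · rw [h11, one_smul] at h9
      exact absurd h9 hwv
    · rw [h11, neg_smul, one_smul] at h9
      exact h9
  have horth : ∀ v w, Vx P v → Vx P w → w ≠ v → w ≠ -v → ⟪v, w⟫ = 0 := by
    intro v w hv hw h1 h2
    apply hEC v w
    by_contra h3
    exact h2 (hanti v w hv hw h1 h3)
  have hneg : ∀ v, Vx P v → Vx P (-v) := by
    intro v hv
    by_contra hcon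
    have h1 : ⟪v, ∑ w ∈ S, w⟫ = 0 := by rw [hsum, inner_zero_right]
    rw [inner_sum, ← Finset.add_sum_erase S _ ((hSm v).mpr hv),
      Finset.sum_eq_zero (s := S.erase v), real_inner_self_eq_norm_sq, hUV v hv] at h1
    · norm_num at h1
    · intro w hw
      rw [Finset.mem_erase, hSm] at hw
      refine horth v w hv hw.2 hw.1 ?_
      rintro rfl
      exact hcon hw.2
  -- a maximal orthogonal subset
  obtain ⟨W, hW, hWmax⟩ := Finset.exists_max_image
    (S.powerset.filter fun W => ∀ a ∈ W, ∀ b ∈ W, a ≠ b → ⟪a, b⟫ = 0) Finset.card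
    ⟨∅, by simp⟩
  rw [Finset.mem_filter, Finset.mem_powerset] at hW
  have hcov : ∀ v, Vx P v → v ∈ W ∨ -v ∈ W := by
    intro v hv
    by_contra hcon
    push Not at hcon
    have h1 : insert v W ∈ S.powerset.filter fun W => ∀ a ∈ W, ∀ b ∈ W, a ≠ b → ⟪a, b⟫ = 0 := by
      rw [Finset.mem_filter, Finset.mem_powerset]
      refine ⟨Finset.insert_subset ((hSm v).mpr hv) hW.1, ?_⟩
      have h2 : ∀ b ∈ W, ⟪v, b⟫ = 0 := by
        intro b hb
        refine horth v b hv ((hSm b).mp (hW.1 hb)) ?_ ?_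
        · rintro rfl
          exact hcon.1 hb
        · rintro rfl
          exact hcon.2 hb
      intro a ha b hb hab
      rw [Finset.mem_insert] at ha hb
      rcases ha with rfl | ha <;> rcases hb with rfl | hb
      · exact absurd rfl hab
      · exact h2 b hb
      · rw [real_inner_comm]
        exact h2 a ha
      · exact hW.2 a ha b hb hab
    have h3 := hWmax _ h1
    rw [Finset.card_insert_of_notMem hcon.1] at h3
    omega
  have hWV : ∀ w ∈ W, Vx P w := fun w hw => (hSm w).mp (hW.1 hw)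
  have hon : Orthonormal ℝ (fun w : W => (w : E (d + 1))) := by
    refine ⟨fun w => hUV _ (hWV _ w.2), fun a b hab => ?_⟩
    exact hW.2 a a.2 b b.2 fun h => hab (Subtype.ext h)
  have hbot : (Submodule.span ℝ (range fun w : W => (w : E (d + 1))))ᗮ = ⊥ := by
    rw [Submodule.eq_bot_iff]
    intro u hu
    rw [Submodule.mem_orthogonal'] at hu
    have h1 : ∀ w ∈ W, ⟪u, w⟫ = 0 := fun w hw =>
      hu w (Submodule.subset_span ⟨⟨w, hw⟩, rfl⟩)
    have h2 : ∀ v, Vx P v → ⟪u, v⟫ = 0 := by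
      intro v hv
      rcases hcov v hv with h | h
      · exact h1 v h
      · have := h1 _ h
        rw [inner_neg_right] at this
        linarith
    refine eq_zero_of_orth hP u 0 fun x hx => ?_
    have h3 : convexHull ℝ {v | Vx P v ∧ v ∈ P} ⊆ {x | ⟪u, x⟫ = 0} := by
      refine convexHull_min (fun v hv => h2 v hv.1) ?_
      intro a ha b hb s t _ _ _
      simp only [mem_ofPred_eq] at ha hb ⊢
      rw [inner_add_right, inner_smul_right, inner_smul_right, ha, hb]
      simp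
    rw [hhull] at hx
    exact h3 hx
  let b0 : OrthonormalBasis W ℝ (E (d + 1)) := OrthonormalBasis.mkOfOrthogonalEqBot hon hbot
  have hb0 : ∀ w : W, b0 w = (w : E (d + 1)) := fun w => by
    simp [b0]
  have hcard : Fintype.card W = d + 1 := by
    have := Module.finrank_eq_card_basis b0.toBasis
    rw [← this, finrank_euclideanSpace, Fintype.card_fin]
  let e : W ≃ Fin (d + 1) := Fintype.equivFinOfCardEq hcard
  refine ⟨0, 1, b0.reindex e, one_pos, ?_⟩
  have hset : {x | ∃ i, x = 0 + (1 : ℝ) • b0.reindex e i ∨ x = 0 - (1 : ℝ) • b0.reindex e i} =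
      {v | Vx P v ∧ v ∈ P} := by
    ext x
    simp only [mem_ofPred_eq, OrthonormalBasis.reindex_apply, hb0, one_smul, zero_add, zero_sub]
    constructor
    · rintro ⟨i, rfl | rfl⟩
      · exact ⟨hWV _ (e.symm i).2, hmem _ (hWV _ (e.symm i).2)⟩
      · exact ⟨hneg _ (hWV _ (e.symm i).2), hmem _ (hneg _ (hWV _ (e.symm i).2))⟩
    · rintro ⟨hx, -⟩
      rcases hcov x hx with h | h
      · exact ⟨e ⟨x, h⟩, Or.inl (by simp)⟩
      · exact ⟨e ⟨-x, h⟩, Or.inr (by simp)⟩
  rw [hset]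
  exact hhull

end Pool.Agent.T9h67.NK
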