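import Pool.Agent.T9h44.NK.Spec5
import Pool.Agent.T9h47.NK.Metric
import Pool.Agent.T9h67.NK.L2

/-!
# Project NK, piece FX: the configuration of the vertices of the figure
-/

set_option autoImplicit false

open Set
open scoped RealInnerProductSpace

namespace Pool.Agent.T9h67.NK

open Pool.Agent.T9h98.DC Pool.Agent.T9h44.NK

theorem fx (hF : S_FACES) (hC : S_CONE) (hI : S_IOTA) (hNB : S_NB) (hVF : S_VF) (hTR : S_TR)
    (hM0 : S_M0) (hM1 : S_M1) (hS0 : S_SUM0) : S_FX := by
  intro n P H c hP hH hU hE hc0 hc1 hPT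
  obtain ⟨-, -, -, -, hne, -⟩ := hF (n + 1) P hP.1
  have hPne : P.Nonempty := by
    obtain ⟨x, hx⟩ := hP.2
    exact ⟨x, interior_subset hx⟩
  obtain ⟨hPP, v, hv⟩ := hne hPne
  have hv0 : v ≠ 0 := by
    intro h
    have := hU v hv
    rw [h, norm_zero] at this
    exact zero_ne_one this
  obtain ⟨ι, hι, -⟩ := hI n v hv0
  obtain ⟨l, hl, hSup, hOrt, hn0, hUF, hprod⟩ := hM1 n P v ι c hP hU hE (by linarith) hc1 hv hι
  have hFg : IsPolytope (fig v (-l • v) ι P) := (hVF n P v (-l • v) ι hP hv hSup hn0 hOrt).1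
  obtain ⟨hPresF, hPTF, -⟩ := hTR n P H v (-l • v) ι hP hH hv hSup hn0 hOrt (by
    intro h _ hh
    rw [map_smul, hh])
  obtain ⟨-, hNB2, hNB3, -⟩ := hNB n P v (-l • v) ι hP hv hSup hn0 hOrt
  obtain ⟨hhull, -, hfin, -, hneF, -⟩ := hF n _ hFg.1
  have hXm : ∀ x, x ∈ hfin.toFinset ↔ Vx (fig v (-l • v) ι P) x := by
    intro x
    rw [Set.Finite.mem_toFinset]
    rfl
  generalize hfin.toFinset = X at hXm
  refine ⟨X, ?_, ?_, ?_, ?_⟩
  · have hFne : (fig v (-l • v) ι P).Nonempty := by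
      obtain ⟨x, hx⟩ := hFg.2
      exact ⟨x, interior_subset hx⟩
    obtain ⟨hFF, x0, hx0⟩ := hneF hFne
    have hPS : fig v (-l • v) ι P = convexHull ℝ (X : Set (E n)) := by
      refine (hhull _ hFF).2.trans (congrArg _ ?_)
      ext x
      simp only [mem_ofPred_eq, Finset.mem_coe, hXm]
      exact ⟨fun h => h.1, fun h => ⟨h, (show IsFace _ {x} from h).2.subset rfl⟩⟩
    have htop : affineSpan ℝ (X : Set (E n)) = ⊤ := by
      rw [← interior_convexHull_nonempty_iff_affineSpan_eq_top, ← hPS]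
      exact hFg.2
    have hpos : 0 < X.card := Finset.card_pos.2 ⟨x0, (hXm x0).2 hx0⟩
    have hv1 : vectorSpan ℝ (X : Set (E n)) = ⊤ := by
      rw [← direction_affineSpan, htop, AffineSubspace.direction_top]
    classical
    have hle := finrank_vectorSpan_image_finset_le ℝ (id : E n → E n) X
      (n := X.card - 1) (by omega)
    rw [Finset.image_id, hv1, finrank_top, finrank_euclideanSpace_fin] at hle
    omega
  · intro x hx
    exact hUF x ((hXm x).1 hx)
  · intro x hx x' hx' hxx'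
    obtain ⟨y, hy, hyx⟩ := hNB2 x ((hXm x).1 hx)
    obtain ⟨y', hy', hyx'⟩ := hNB2 x' ((hXm x').1 hx')
    have hyy : y ≠ y' := fun h => hxx' ((hNB3 y y' x x' hy hy' hyx hyx').2 h)
    have e := hprod y y' x x' hy hy' hyx hyx'
    have h1c : 0 < 1 + c := by linarith
    have h2c : 0 < 1 - c ^ 2 := by nlinarith
    obtain ⟨-, -, -, -, -, -, -, -, hadj, -⟩ := hF (n + 1) P hP.1
    by_cases ha : Adj P y y'
    · left
      rw [hE y y' ha] at e
      rw [eq_div_iff h1c.ne']
      have h3 : (⟪x, x'⟫ * (1 + c) - c) * (1 - c) = 0 := by linear_combination e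
      rcases mul_eq_zero.1 h3 with h4 | h4
      · linarith
      · exfalso; linarith
    · right
      have hk := Pool.Agent.T9h47.NK.kl hF hC hP hc1 hU hE (hM0 n P c hP hU hE hc1) y y'
        (hadj v y hy).2.1 (hadj v y' hy').2.1 hyy ha
      have h5 : ⟪x, x'⟫ * (1 - c ^ 2) ≤ (2 * (c / (1 + c)) - 1) * (1 - c ^ 2) := by
        have h6 : (2 * (c / (1 + c)) - 1) * (1 - c ^ 2) = 2 * c - 1 - c ^ 2 := by
          field_simp
          ring
        rw [h6]
        linarith
      exact le_of_mul_le_mul_right h5 h2c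
  · refine hS0 n _ (figH H v ι) X hFg hPresF (fun x x' hx hx' => ?_) hXm
    exact trans_of_pt1 (hPTF 1 hPT) x x' hx hx'

end Pool.Agent.T9h67.NK
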